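import Pool.Agent.U705.RC.Stm

/-!
# Project RC, package ESL: Erdős–Szekeres for lists, and independent sets in digraphs of bounded
outdegree
-/

open Pool.Agent.U705.RC

namespace Pool.Agent.U94.RC

theorem filter_len {P : Type} (s : List P) (p q : P → Bool) (h : ∀ y ∈ s, p y = true ∨ q y = true) :
    s.length ≤ (s.filter p).length + (s.filter q).length := by
  induction s with
  | nil => simp
  | cons x s ih =>
    have ih' := ih fun y hy => h y (List.mem_cons_of_mem x hy)
    rcases h x List.mem_cons_self with hp | hq
    · rw [List.filter_cons_of_pos hp]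
      have h2 : (s.filter q).length ≤ ((x :: s).filter q).length := by
        by_cases hq : q x = true
        · rw [List.filter_cons_of_pos hq]; simp
        · rw [List.filter_cons_of_neg hq]
      simp only [List.length_cons]
      omega
    · rw [List.filter_cons_of_pos (p := q) hq]
      have h2 : (s.filter p).length ≤ ((x :: s).filter p).length := by
        by_cases hq : p x = true
        · rw [List.filter_cons_of_pos hq]; simp
        · rw [List.filter_cons_of_neg hq]
      simp only [List.length_cons]
      omega

open Classical in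
theorem esl_aux {P : Type} : ∀ (n a b : ℕ), a + b = n → ∀ σ τ : List P, σ.Nodup →
    (∀ x ∈ σ, x ∈ τ) → 2 ^ (a + b) ≤ σ.length →
    (∃ L : List P, L.length = a ∧ L.Sublist σ ∧ L.Sublist τ) ∨
    (∃ L : List P, L.length = b ∧ L.Sublist σ ∧ L.reverse.Sublist τ) := by
  intro n
  induction n with
  | zero =>
    intro a b hab σ τ _ _ _
    obtain rfl : a = 0 := by omega
    exact Or.inl ⟨[], rfl, List.nil_sublist _, List.nil_sublist _⟩
  | succ n ih =>
    intro a b hab σ τ hσ hτ hlen
    rcases Nat.eq_zero_or_pos a with rfl | ha
    · exact Or.inl ⟨[], rfl, List.nil_sublist _, List.nil_sublist _⟩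
    rcases Nat.eq_zero_or_pos b with rfl | hb
    · exact Or.inr ⟨[], rfl, List.nil_sublist _, List.nil_sublist _⟩
    obtain ⟨a, rfl⟩ : ∃ a', a = a' + 1 := ⟨a - 1, by omega⟩
    obtain ⟨b, rfl⟩ : ∃ b', b = b' + 1 := ⟨b - 1, by omega⟩
    have hn : n = a + b + 1 := by omega
    have hp : 2 ^ (a + 1 + (b + 1)) = 2 * 2 ^ (a + b + 1) := by
      rw [show a + 1 + (b + 1) = (a + b + 1) + 1 by ring, pow_succ]; ring
    rw [hp] at hlen
    have hp0 : 0 < 2 ^ (a + b + 1) := by positivity
    cases σ with
    | nil => simp at hlen
    | cons x σ =>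
      obtain ⟨t1, t2, rfl⟩ := List.append_of_mem (hτ x List.mem_cons_self)
      have hx : x ∉ σ := (List.nodup_cons.1 hσ).1
      have hσ' : σ.Nodup := (List.nodup_cons.1 hσ).2
      have hor : ∀ y ∈ σ, y ∈ t2 ∨ y ∈ t1 := by
        intro y hy
        have h1 := hτ y (List.mem_cons_of_mem x hy)
        rw [List.mem_append, List.mem_cons] at h1
        rcases h1 with h1 | h1 | h1
        · exact Or.inr h1
        · exact absurd (h1 ▸ hy) hx
        · exact Or.inl h1
      have hl := filter_len σ (fun y => decide (y ∈ t2)) (fun y => decide (y ∈ t1))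
        (fun y hy => by simpa using hor y hy)
      simp only [List.length_cons] at hlen
      by_cases hc : 2 ^ (a + b + 1) ≤ (σ.filter (fun y => decide (y ∈ t2))).length
      · have h1 := ih a (b + 1) (by omega) (σ.filter (fun y => decide (y ∈ t2))) t2
          (hσ'.filter _) (fun y hy => by simpa using (List.mem_filter.1 hy).2)
          (by rw [show a + (b + 1) = a + b + 1 by ring]; exact hc)
        rcases h1 with ⟨L, h1, h2, h3⟩ | ⟨L, h1, h2, h3⟩
        · left
          refine ⟨x :: L, by simp [h1], ?_, ?_⟩
          · exact (h2.trans List.filter_sublist).cons_cons x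
          · exact (h3.cons_cons x).trans (List.sublist_append_right t1 _)
        · right
          refine ⟨L, h1, (h2.trans List.filter_sublist).cons x, ?_⟩
          exact (h3.cons x).trans (List.sublist_append_right t1 _)
      · have hc' : 2 ^ (a + b + 1) ≤ (σ.filter (fun y => decide (y ∈ t1))).length := by omega
        have h1 := ih (a + 1) b (by omega) (σ.filter (fun y => decide (y ∈ t1))) t1
          (hσ'.filter _) (fun y hy => by simpa using (List.mem_filter.1 hy).2)
          (by rw [show a + 1 + b = a + b + 1 by ring]; exact hc')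
        rcases h1 with ⟨L, h1, h2, h3⟩ | ⟨L, h1, h2, h3⟩
        · left
          refine ⟨L, h1, (h2.trans List.filter_sublist).cons x, ?_⟩
          exact h3.trans (List.sublist_append_left t1 _)
        · right
          refine ⟨x :: L, by simp [h1], (h2.trans List.filter_sublist).cons_cons x, ?_⟩
          rw [List.reverse_cons]
          have h4 : (L.reverse ++ [x]).Sublist (t1 ++ [x]) := h3.append (List.Sublist.refl _)
          have h5 : (t1 ++ [x]).Sublist (t1 ++ x :: t2) :=
            (List.Sublist.refl t1).append ((List.nil_sublist t2).cons_cons x)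
          exact h4.trans h5

/-- **ESL** -/
theorem t_ESL : S_ESL := fun _ a b σ τ h1 h2 h3 => esl_aux (a + b) a b rfl σ τ h1 h2 h3

/-- **DIG** -/
theorem t_DIG : S_DIG := by
  intro V _ S X D m
  induction m generalizing S with
  | zero => intro _ _; exact ⟨∅, Finset.empty_subset _, rfl, by simp⟩
  | succ m ih =>
    intro hX hS
    have hS0 : S.Nonempty := by
      rw [← Finset.card_pos]
      have : 0 < (m + 1) * (2 * D + 1) := by positivity
      omega
    have hsum : ∑ v ∈ S, (S.filter fun u => v ∈ X u).card ≤ ∑ _v ∈ S, D := by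
      have h1 : ∑ v ∈ S, (S.filter fun u => v ∈ X u).card =
          ∑ u ∈ S, (S.filter fun v => v ∈ X u).card := by
        simp only [Finset.card_filter]
        exact Finset.sum_comm
      rw [h1]
      refine Finset.sum_le_sum fun u hu => le_trans (Finset.card_le_card ?_) (hX u hu)
      intro v hv
      exact (Finset.mem_filter.1 hv).2
    obtain ⟨v, hv, hvD⟩ := Finset.exists_le_of_sum_le hS0 hsum
    set S' := S \ (insert v (X v ∪ S.filter fun u => v ∈ X u)) with hS'
    have hcard : m * (2 * D + 1) ≤ S'.card := by
      have h1 : (insert v (X v ∪ S.filter fun u => v ∈ X u)).card ≤ 2 * D + 1 := by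
        refine (Finset.card_insert_le _ _).trans ?_
        have h2 := Finset.card_union_le (X v) (S.filter fun u => v ∈ X u)
        have h3 := hX v hv
        omega
      have h2 := Finset.le_card_sdiff (insert v (X v ∪ S.filter fun u => v ∈ X u)) S
      have h3 : (m + 1) * (2 * D + 1) = m * (2 * D + 1) + (2 * D + 1) := by ring
      rw [hS']
      omega
    obtain ⟨T, hT, hTc, hTi⟩ := ih S' (fun u hu => hX u (Finset.mem_sdiff.1 hu).1) hcard
    have hout : ∀ u ∈ T, u ∈ S ∧ u ≠ v ∧ u ∉ X v ∧ v ∉ X u := by
      intro u hu
      have h1 := hT hu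
      rw [hS', Finset.mem_sdiff, Finset.mem_insert, Finset.mem_union, Finset.mem_filter] at h1
      push Not at h1
      exact ⟨h1.1, h1.2.1, h1.2.2.1, h1.2.2.2 h1.1⟩
    have hvT : v ∉ T := fun h => (hout v h).2.1 rfl
    refine ⟨insert v T, ?_, ?_, ?_⟩
    · intro u hu
      rcases Finset.mem_insert.1 hu with rfl | hu
      · exact hv
      · exact (hout u hu).1
    · rw [Finset.card_insert_of_notMem hvT, hTc]
    · intro x hx y hy hxy
      rcases Finset.mem_insert.1 hx with hx1 | hx
      · rcases Finset.mem_insert.1 hy with hy1 | hy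
        · exact absurd (hx1.trans hy1.symm) hxy
        · rw [hx1]; exact (hout y hy).2.2.1
      · rcases Finset.mem_insert.1 hy with hy1 | hy
        · rw [hy1]; exact (hout x hx).2.2.2
        · exact hTi x hx y hy hxy

end Pool.Agent.U94.RC
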