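import Pool.Agent.U705.RC.Stm

/-!
# Project RC, package MERGE: lists which agree off small sets come from one list
-/

open Pool.Agent.U705.RC

namespace Pool.Agent.U94.RC

theorem idx_lt {P : Type} [DecidableEq P] {x y : P} : ∀ {L : List P}, L.Nodup →
    [x, y].Sublist L → L.idxOf x < L.idxOf y
  | [], _, h => by simp at h
  | c :: L, hn, h => by
    obtain ⟨h1, h2⟩ := List.nodup_cons.1 hn
    cases h with
    | cons _ h =>
      have hx : x ∈ L := h.subset (by simp)
      have hy : y ∈ L := h.subset (by simp)
      have hxc : c ≠ x := fun e => h1 (e ▸ hx)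
      have hyc : c ≠ y := fun e => h1 (e ▸ hy)
      rw [List.idxOf_cons_ne L hxc, List.idxOf_cons_ne L hyc]
      exact Nat.succ_lt_succ (idx_lt h2 h)
    | cons_cons _ h =>
      have hy : y ∈ L := h.subset (by simp)
      have hyc : x ≠ y := fun e => h1 (e ▸ hy)
      rw [List.idxOf_cons_self, List.idxOf_cons_ne L hyc]
      exact Nat.succ_pos _

theorem sub_of_idx {P : Type} [DecidableEq P] {x y : P} : ∀ {L : List P}, y ∈ L →
    L.idxOf x < L.idxOf y → [x, y].Sublist L
  | [], hy, _ => by simp at hy
  | c :: L, hy, h => by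
    by_cases hx : c = x
    · subst hx
      have hyc : c ≠ y := by
        rintro rfl
        simp at h
      have hy' : y ∈ L := by
        rcases List.mem_cons.1 hy with e | e
        · exact absurd e.symm hyc
        · exact e
      exact (List.singleton_sublist.2 hy').cons_cons c
    · have hyc : c ≠ y := by
        rintro rfl
        simp at h
      have hy' : y ∈ L := by
        rcases List.mem_cons.1 hy with e | e
        · exact absurd e.symm hyc
        · exact e
      rw [List.idxOf_cons_ne L hx, List.idxOf_cons_ne L hyc] at h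
      exact (sub_of_idx hy' (Nat.lt_of_succ_lt_succ h)).cons c

theorem sub_trans {P : Type} [DecidableEq P] {x y z : P} {L : List P} (hn : L.Nodup)
    (h1 : [x, y].Sublist L) (h2 : [y, z].Sublist L) : [x, z].Sublist L :=
  sub_of_idx (h2.subset (by simp)) ((idx_lt hn h1).trans (idx_lt hn h2))

theorem sub_total {P : Type} {x y : P} {L : List P} (hxy : x ≠ y) (hx : x ∈ L) (hy : y ∈ L) :
    [x, y].Sublist L ∨ [y, x].Sublist L := by
  obtain ⟨a, b, rfl⟩ := List.append_of_mem hx
  rw [List.mem_append, List.mem_cons] at hy
  rcases hy with h | h | h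
  · right
    exact (List.singleton_sublist.2 h).append (List.singleton_sublist.2 List.mem_cons_self)
  · exact absurd h.symm hxy
  · left
    exact ((List.singleton_sublist.2 h).cons_cons x).trans (List.sublist_append_right a _)

theorem not_self {P : Type} {x : P} {L : List P} (hn : L.Nodup) : ¬ [x, x].Sublist L := by
  intro h
  have := hn.sublist h
  simp at this

open Classical in
/-- **MERGE** -/
theorem t_MERGE : S_MERGE := by
  intro P inst n hn I m hI hm hmI hcomp
  -- a free index
  have hfree : ∀ x y z : P, ∃ l, x ∉ I l ∧ y ∉ I l ∧ z ∉ I l := by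
    intro x y z
    have hone : ∀ w : P, (Finset.univ.filter fun l => w ∈ I l).card ≤ 1 := by
      intro w
      rw [Finset.card_le_one]
      intro a ha b hb
      by_contra hab
      exact Finset.disjoint_left.1 (hI a b hab) (Finset.mem_filter.1 ha).2
        (Finset.mem_filter.1 hb).2
    by_contra hcon
    push Not at hcon
    have h1 : (Finset.univ : Finset (Fin n)) ⊆ (Finset.univ.filter fun l => x ∈ I l) ∪
        ((Finset.univ.filter fun l => y ∈ I l) ∪ (Finset.univ.filter fun l => z ∈ I l)) := by
      intro l _
      simp only [Finset.mem_union, Finset.mem_filter, Finset.mem_univ, true_and]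
      by_cases hx : x ∈ I l
      · exact Or.inl hx
      · by_cases hy : y ∈ I l
        · exact Or.inr (Or.inl hy)
        · exact Or.inr (Or.inr (hcon l hx hy))
    have h2 := Finset.card_le_card h1
    rw [Finset.card_univ, Fintype.card_fin] at h2
    have h3 := Finset.card_union_le (Finset.univ.filter fun l => x ∈ I l)
      ((Finset.univ.filter fun l => y ∈ I l) ∪ (Finset.univ.filter fun l => z ∈ I l))
    have h4 := Finset.card_union_le (Finset.univ.filter fun l => y ∈ I l)
      (Finset.univ.filter fun l => z ∈ I l)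
    have hx := hone x
    have hy := hone y
    have hz := hone z
    omega
  set V : Finset P := Finset.univ.biUnion fun i => (m i).toFinset with hV
  have memV : ∀ x, x ∈ V ↔ ∃ i, x ∈ m i := by
    intro x
    rw [hV, Finset.mem_biUnion]
    simp
  have hmem : ∀ x l, x ∈ V → x ∉ I l → x ∈ m l := by
    intro x l hx hxl
    obtain ⟨i, hi⟩ := (memV x).1 hx
    by_cases hil : i = l
    · exact hil ▸ hi
    · have h1 : x ∈ (m i).filter (fun x => x ∉ I l) := List.mem_filter.2 ⟨hi, by simpa using hxl⟩
      rw [hcomp i l hil] at h1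
      exact (List.mem_filter.1 h1).1
  have hmove : ∀ x y i l, x ∉ I l → y ∉ I l → [x, y].Sublist (m i) → [x, y].Sublist (m l) := by
    intro x y i l hx hy h
    by_cases hil : i = l
    · exact hil ▸ h
    · have h1 := h.filter (fun x => decide (x ∉ I l))
      rw [hcomp i l hil] at h1
      have h2 : [x, y].filter (fun x => decide (x ∉ I l)) = [x, y] := by
        rw [List.filter_cons_of_pos (by simpa using hx), List.filter_cons_of_pos (by simpa using hy),
          List.filter_nil]
      rw [h2] at h1
      exact h1.trans List.filter_sublist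
  let lt : P → P → Prop := fun x y => ∃ i, [x, y].Sublist (m i)
  have lt_trans : ∀ x y z, lt x y → lt y z → lt x z := by
    rintro x y z ⟨i, hi⟩ ⟨j, hj⟩
    obtain ⟨l, hx, hy, hz⟩ := hfree x y z
    exact ⟨l, sub_trans (hm l) (hmove x y i l hx hy hi) (hmove y z j l hy hz hj)⟩
  have lt_irr : ∀ x, ¬ lt x x := fun x ⟨i, hi⟩ => not_self (hm i) hi
  let rk : P → ℕ := fun x => (V.filter fun y => lt y x).card
  have rk_lt : ∀ x y, lt x y → rk x < rk y := by
    intro x y h
    refine Finset.card_lt_card ?_
    rw [Finset.ssubset_iff_of_subset]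
    · refine ⟨x, ?_, ?_⟩
      · rw [Finset.mem_filter]
        obtain ⟨i, hi⟩ := h
        exact ⟨(memV x).2 ⟨i, hi.subset (by simp)⟩, ⟨i, hi⟩⟩
      · rw [Finset.mem_filter]
        exact fun h' => lt_irr x h'.2
    · intro z hz
      rw [Finset.mem_filter] at hz ⊢
      exact ⟨hz.1, lt_trans z x y hz.2 h⟩
  have rk_inj : ∀ x y, x ∈ V → y ∈ V → rk x = rk y → x = y := by
    intro x y hx hy h
    by_contra hxy
    obtain ⟨l, h1, h2, -⟩ := hfree x y y
    rcases sub_total hxy (hmem x l hx h1) (hmem y l hy h2) with h3 | h3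
    · exact absurd h (rk_lt x y ⟨l, h3⟩).ne
    · exact absurd h (rk_lt y x ⟨l, h3⟩).ne'
  let r : P → P → Prop := fun x y => rk x ≤ rk y
  have r_total : ∀ a b, r a b ∨ r b a := fun a b => le_total (rk a) (rk b)
  have r_trans : ∀ a b c, r a b → r b c → r a c := fun a b c h1 h2 => le_trans h1 h2
  have : Std.Total r := ⟨r_total⟩
  have : IsTrans P r := ⟨r_trans⟩
  have hperm : (V.toList.insertionSort r).Perm V.toList := List.perm_insertionSort r V.toList
  have hsort : (V.toList.insertionSort r).Pairwise r := List.pairwise_insertionSort r V.toList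
  have hnd : (V.toList.insertionSort r).Nodup := hperm.nodup_iff.2 (Finset.nodup_toList V)
  refine ⟨V.toList.insertionSort r, hnd, fun i => ?_⟩
  have hmemM : ∀ x, x ∈ V.toList.insertionSort r ↔ x ∈ V := by
    intro x
    rw [hperm.mem_iff, Finset.mem_toList]
  refine List.Perm.eq_of_pairwise (le := r) ?_ (hsort.filter _) ?_ ?_
  · intro a b ha hb h1 h2
    refine rk_inj a b ((hmemM a).1 (List.mem_filter.1 ha).1) ((memV b).2 ⟨i, hb⟩) (le_antisymm h1 h2)
  · rw [List.pairwise_iff_forall_sublist]
    intro a b hab
    exact (rk_lt a b ⟨i, hab⟩).le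
  · rw [List.perm_ext_iff_of_nodup (hnd.filter _) (hm i)]
    intro x
    rw [List.mem_filter, hmemM]
    constructor
    · rintro ⟨h1, h2⟩
      exact hmem x i h1 (by simpa using h2)
    · intro h
      exact ⟨(memV x).2 ⟨i, h⟩, by simpa using hmI i x h⟩

end Pool.Agent.U94.RC
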